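import Pool.Agent.TVI.Total
import Pool.Agent.MP_10f251_co.AGS

/-!
# Chromatic index at most `max (Δ + √Δ + 1) w`
-/

set_option autoImplicit false

namespace Pool.Agent.TVI

open Finset Pool.Agent.TC

open scoped Classical

variable {V E : Type} [Fintype V] [Fintype E]

theorem index_le (G : MG V E) (h2 : 1 ≤ G.maxDeg) :
    (G.chromaticIndex : ℝ) ≤ max ((G.maxDeg : ℝ) + √(G.maxDeg : ℝ) + 1) (G.density : ℝ) := by
  set Δ := G.maxDeg with hΔ
  set r : ℕ := ⌈√(Δ : ℝ)⌉₊ with hr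
  have hΔr : (1 : ℝ) ≤ Δ := by exact_mod_cast h2
  have hsq : (1 : ℝ) ≤ √(Δ : ℝ) := by rw [Real.one_le_sqrt]; exact hΔr
  have hr1 : √(Δ : ℝ) ≤ r := Nat.le_ceil _
  have hr2 : (r : ℝ) < √(Δ : ℝ) + 1 := Nat.ceil_lt_add_one (by positivity)
  have hrr : (1 : ℝ) ≤ r := hsq.trans hr1
  have hrn : 1 ≤ r := by exact_mod_cast hrr
  have hΔr2 : Δ ≤ r ^ 2 := by
    have h3 : (Δ : ℝ) ≤ (r : ℝ) ^ 2 := by
      calc (Δ : ℝ) = √(Δ : ℝ) ^ 2 := by rw [Real.sq_sqrt (by positivity)]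
        _ ≤ (r : ℝ) ^ 2 := pow_le_pow_left₀ (by positivity) hr1 2
    exact_mod_cast h3
  set s : ℕ := max r (G.density - Δ) with hs
  have hs1 : r ≤ s := le_max_left _ _
  have hs2 : G.density ≤ Δ + s := by
    have : G.density - Δ ≤ s := le_max_right _ _
    omega
  obtain ⟨φ, hφ⟩ := G.ags Δ s (hrn.trans hs1)
    (hΔr2.trans (Nat.pow_le_pow_left hs1 2)) (fun v => G.deg_le_maxDeg v)
    (fun X hX hX3 => G.eIn_le_of_density hs2 X hX hX3)
  have h3 : G.chromaticIndex ≤ Δ + s := Nat.sInf_le ⟨φ, hφ⟩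
  have h4 : ((G.chromaticIndex : ℕ) : ℝ) ≤ ((Δ + s : ℕ) : ℝ) := by exact_mod_cast h3
  refine h4.trans ?_
  rcases le_total (G.density - Δ) r with h | h
  · refine le_trans ?_ (le_max_left _ _)
    have : s = r := max_eq_left h
    rw [this]
    push_cast
    linarith
  · refine le_trans ?_ (le_max_right _ _)
    have h5 : s = G.density - Δ := max_eq_right h
    have h6 : Δ + s = G.density := by omega
    rw [h6]

end Pool.Agent.TVI
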